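import Pool.Agent.Helper8.ZT.Defs

set_option autoImplicit false

/-!
# The number of sign vectors of affine functions on an interval, and the number of sparse queries
-/

namespace Pool.Agent.Helper20.ZT

open Finset
open Pool.Agent.Helper23.SP

/-- The sign of an increasing affine function changes at most twice. -/
theorem changes_pos (N : ℕ) (a b : ℤ) (hb : 0 < b) :
    ((range N).filter fun c : ℕ => SignType.sign (a + b * (c : ℤ)) ≠
      SignType.sign (a + b * ((c + 1 : ℕ) : ℤ))).card ≤ 2 := by
  classical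
  have hsub : ((range N).filter fun c : ℕ => SignType.sign (a + b * (c : ℤ)) ≠
      SignType.sign (a + b * ((c + 1 : ℕ) : ℤ))) ⊆
      ((range N).filter fun c : ℕ => a + b * (c : ℤ) < 0 ∧ 0 ≤ a + b * ((c + 1 : ℕ) : ℤ)) ∪
        ((range N).filter fun c : ℕ => a + b * (c : ℤ) = 0) := by
    intro c hc
    rw [mem_filter] at hc
    rw [mem_union, mem_filter, mem_filter]
    rcases lt_trichotomy (a + b * (c : ℤ)) 0 with h | h | h
    · left
      refine ⟨hc.1, h, ?_⟩
      by_contra h'
      rw [not_le] at h'
      exact hc.2 (by rw [sign_neg h, sign_neg h'])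
    · exact Or.inr ⟨hc.1, h⟩
    · exfalso
      have h' : 0 < a + b * ((c + 1 : ℕ) : ℤ) := by
        push_cast
        nlinarith
      exact hc.2 (by rw [sign_pos h, sign_pos h'])
  have h1 : ((range N).filter fun c : ℕ =>
      a + b * (c : ℤ) < 0 ∧ 0 ≤ a + b * ((c + 1 : ℕ) : ℤ)).card ≤ 1 := by
    rw [Finset.card_le_one]
    intro x hx y hy
    rw [mem_filter] at hx hy
    obtain ⟨-, hx1, hx2⟩ := hx
    obtain ⟨-, hy1, hy2⟩ := hy
    by_contra hne
    rcases lt_or_gt_of_ne hne with h | h
    · have h' : (((x + 1 : ℕ)) : ℤ) ≤ (y : ℤ) := by exact_mod_cast h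
      nlinarith [mul_le_mul_of_nonneg_left h' hb.le]
    · have h' : (((y + 1 : ℕ)) : ℤ) ≤ (x : ℤ) := by exact_mod_cast h
      nlinarith [mul_le_mul_of_nonneg_left h' hb.le]
  have h2 : ((range N).filter fun c : ℕ => a + b * (c : ℤ) = 0).card ≤ 1 := by
    rw [Finset.card_le_one]
    intro x hx y hy
    rw [mem_filter] at hx hy
    have h3 : b * (x : ℤ) = b * (y : ℤ) := by linarith [hx.2, hy.2]
    exact_mod_cast mul_left_cancel₀ hb.ne' h3
  calc _ ≤ _ := card_le_card hsub
    _ ≤ _ := card_union_le _ _
    _ ≤ 1 + 1 := Nat.add_le_add h1 h2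
    _ = 2 := rfl

/-- The sign of an affine function changes at most twice. -/
theorem changes_le (N : ℕ) (a b : ℤ) :
    ((range N).filter fun c : ℕ => SignType.sign (a + b * (c : ℤ)) ≠
      SignType.sign (a + b * ((c + 1 : ℕ) : ℤ))).card ≤ 2 := by
  rcases lt_trichotomy b 0 with h | h | h
  · have h1 := changes_pos N (-a) (-b) (by linarith)
    refine le_trans (card_le_card ?_) h1
    intro c hc
    rw [mem_filter] at hc ⊢
    refine ⟨hc.1, fun h2 => hc.2 ?_⟩
    have e1 : -a + -b * (c : ℤ) = -(a + b * (c : ℤ)) := by ring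
    have e2 : -a + -b * ((c + 1 : ℕ) : ℤ) = -(a + b * ((c + 1 : ℕ) : ℤ)) := by ring
    rw [e1, e2, Left.sign_neg, Left.sign_neg] at h2
    exact neg_injective h2
  · subst h
    simp
  · exact changes_pos N a b h

/-- Affine functions of an integer variable in an interval have together few sign vectors. -/
theorem signs_card {Q : Type} [Fintype Q] (N : ℕ) (α β : Q → ℤ) :
    ∃ T : Finset (Q → SignType), T.card ≤ 2 * Fintype.card Q + 1 ∧
      ∀ c : Fin (N + 1), (fun q => SignType.sign (α q + β q * ((c : ℕ) : ℤ))) ∈ T := by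
  classical
  set v : ℕ → Q → SignType := fun c q => SignType.sign (α q + β q * (c : ℤ)) with hv
  set Ch : Finset ℕ := (range N).filter fun c => v c ≠ v (c + 1) with hCh
  have hcard : Ch.card ≤ 2 * Fintype.card Q := by
    have hsub : Ch ⊆ (univ : Finset Q).biUnion fun q => (range N).filter fun c : ℕ =>
        SignType.sign (α q + β q * (c : ℤ)) ≠
          SignType.sign (α q + β q * ((c + 1 : ℕ) : ℤ)) := by
      intro c hc
      rw [hCh, mem_filter] at hc
      obtain ⟨hc1, hc2⟩ := hc
      rw [Function.ne_iff] at hc2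
      obtain ⟨q, hq⟩ := hc2
      rw [mem_biUnion]
      exact ⟨q, mem_univ q, mem_filter.mpr ⟨hc1, hq⟩⟩
    calc Ch.card ≤ _ := card_le_card hsub
      _ ≤ ∑ q : Q, _ := card_biUnion_le
      _ ≤ ∑ _q : Q, 2 := sum_le_sum fun q _ => changes_le N (α q) (β q)
      _ = 2 * Fintype.card Q := by
        rw [sum_const, card_univ, smul_eq_mul, mul_comm]
  refine ⟨insert (v 0) (Ch.image fun c => v (c + 1)), ?_, ?_⟩
  · calc _ ≤ (Ch.image fun c => v (c + 1)).card + 1 := card_insert_le _ _
      _ ≤ Ch.card + 1 := Nat.add_le_add_right card_image_le 1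
      _ ≤ 2 * Fintype.card Q + 1 := Nat.add_le_add_right hcard 1
  · have key : ∀ c : ℕ, c ≤ N → v c ∈ insert (v 0) (Ch.image fun c => v (c + 1)) := by
      intro c
      induction c with
      | zero => intro _; exact mem_insert_self _ _
      | succ c ih =>
        intro hc
        by_cases h : v c = v (c + 1)
        · rw [← h]; exact ih (by omega)
        · refine mem_insert_of_mem (mem_image.mpr ⟨c, ?_, rfl⟩)
          rw [hCh, mem_filter, mem_range]
          exact ⟨by omega, h⟩
    intro c
    exact key c (by have := c.isLt; omega)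

/-- There are finitely many sparse queries. -/
theorem exists_fintype_sparse (n s K C : ℕ) : ∃ _ : Fintype (SparseQ n s K C),
    Fintype.card (SparseQ n s K C) ≤ (n ^ 2 * (2 * K + 1)) ^ s * (2 * C + 1) := by
  classical
  have hcode : ∀ (K : ℕ) (x : ℤ), |x| ≤ K → (x + K).toNat < 2 * K + 1 := by
    intro K x hx
    rw [abs_le] at hx
    omega
  let F : SparseQ n s K C → (Fin s → (Fin n × Fin n) × Fin (2 * K + 1)) × Fin (2 * C + 1) :=
    fun q => (fun l => (q.cell l, ⟨(q.coef l + K).toNat, hcode K _ (q.coef_le l)⟩),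
      ⟨(q.const + C).toNat, hcode C _ q.const_le⟩)
  have hF : Function.Injective F := by
    intro q q' h
    have h1 : ∀ l, (q.cell l, (⟨(q.coef l + K).toNat, hcode K _ (q.coef_le l)⟩ :
        Fin (2 * K + 1))) = (q'.cell l, ⟨(q'.coef l + K).toNat, hcode K _ (q'.coef_le l)⟩) :=
      fun l => congrFun (congrArg Prod.fst h) l
    have h2 : (⟨(q.const + C).toNat, hcode C _ q.const_le⟩ : Fin (2 * C + 1)) =
        ⟨(q'.const + C).toNat, hcode C _ q'.const_le⟩ := congrArg Prod.snd h
    have hconst : q.const = q'.const := by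
      have h3 := congrArg Fin.val h2
      have h4 := abs_le.mp q.const_le
      have h5 := abs_le.mp q'.const_le
      simp only at h3
      omega
    have hcell : q.cell = q'.cell := funext fun l => congrArg Prod.fst (h1 l)
    have hcoef : q.coef = q'.coef := by
      funext l
      have h3 := congrArg Fin.val (congrArg Prod.snd (h1 l))
      have h4 := abs_le.mp (q.coef_le l)
      have h5 := abs_le.mp (q'.coef_le l)
      simp only at h3
      omega
    obtain ⟨c, k, t, h3, h4⟩ := q
    obtain ⟨c', k', t', h3', h4'⟩ := q'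
    simp only at hconst hcell hcoef
    subst hconst hcell hcoef
    rfl
  let inst : Fintype (SparseQ n s K C) := Fintype.ofInjective F hF
  refine ⟨inst, ?_⟩
  refine le_trans (Fintype.card_le_of_injective F hF) (le_of_eq ?_)
  rw [Fintype.card_prod, Fintype.card_fun, Fintype.card_prod, Fintype.card_prod,
    Fintype.card_fin, Fintype.card_fin, Fintype.card_fin, Fintype.card_fin, sq]

end Pool.Agent.Helper20.ZT
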